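import Pool.Agent.R279.PosK2

/-!
# Positive isomorphisms between `C(K)` spaces of uncountable compact metrizable spaces

For all uncountable compact metrizable spaces `K` and `L` there is a linear homeomorphism
`T : C(K) → C(L)` which is positive.  With `L = [0,1]` this answers the question of the problem in
the affirmative, with `T ≥ 0`; with the roles of the spaces exchanged one also gets, for every such
`K`, an isomorphism `T : C(K) → C([0,1])` with `T⁻¹ ≥ 0`.
-/

set_option autoImplicit false

namespace Pool.Agent.Results.MP_cf3d36_an.PositiveIsomorphism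

universe u v

/-- Let `K` and `L` be uncountable compact metrizable spaces. There is a linear homeomorphism `T`
of `C(K)` onto `C(L)` (supremum norms) which is positive: `T f ≥ 0` whenever `f ≥ 0`. -/
theorem result (K : Type u) [TopologicalSpace K] [CompactSpace K]
    [TopologicalSpace.MetrizableSpace K] [Uncountable K]
    (L : Type v) [TopologicalSpace L] [CompactSpace L]
    [TopologicalSpace.MetrizableSpace L] [Uncountable L] :
    ∃ T : C(K, ℝ) ≃L[ℝ] C(L, ℝ), ∀ f : C(K, ℝ), (∀ x, 0 ≤ f x) → ∀ y, 0 ≤ (T f) y := by
  obtain ⟨S, hS⟩ := (Pool.Agent.R279.PosK.main K).1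
  obtain ⟨T, hT⟩ := (Pool.Agent.R279.PosK.main L).2
  exact ⟨S.trans T, fun f hf => hT _ (hS f hf)⟩

/-- The closed unit interval is one of the admissible spaces. -/
example (K : Type u) [TopologicalSpace K] [CompactSpace K]
    [TopologicalSpace.MetrizableSpace K] [Uncountable K] :
    ∃ T : C(K, ℝ) ≃L[ℝ] C(unitInterval, ℝ), ∀ f : C(K, ℝ), (∀ x, 0 ≤ f x) → ∀ y, 0 ≤ (T f) y := by
  have : Uncountable unitInterval := by
    rw [← Cardinal.aleph0_lt_mk_iff, Cardinal.mk_Icc_real zero_lt_one]
    exact Cardinal.aleph0_lt_continuum
  exact result K unitInterval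

end Pool.Agent.Results.MP_cf3d36_an.PositiveIsomorphism
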